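import Pool.Agent.Helper49.KR.St

/-!
# Project KR (MP_c973ff_an), module GEN: subspaces of given dimensions
-/

set_option autoImplicit false

namespace Pool.Agent.Helper13.KR

open Finset Filter Topology Module
open Pool.Agent.Helper49.KX Pool.Agent.Helper49.KR

/-- a subspace has subspaces of all smaller dimensions -/
theorem ex_sub {V : Type} [AddCommGroup V] [Module ℂ V] [FiniteDimensional ℂ V] (W : Submodule ℂ V) {k : ℕ}
    (hk : k ≤ finrank ℂ W) : ∃ P ≤ W, finrank ℂ P = k := by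
  have b := finBasis ℂ W
  let v : Fin k → V := fun i => (b (Fin.castLE hk i) : V)
  have hv : LinearIndependent ℂ v := by
    have h1 : LinearIndependent ℂ fun i => ((b i : W) : V) :=
      b.linearIndependent.map' W.subtype (Submodule.ker_subtype W)
    exact h1.comp _ (Fin.castLE_injective hk)
  refine ⟨Submodule.span ℂ (Set.range v), ?_, ?_⟩
  · rw [Submodule.span_le]
    rintro _ ⟨i, rfl⟩
    exact (b (Fin.castLE hk i)).2
  · rw [finrank_span_eq_card hv, Fintype.card_fin]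

/-- relative complements -/
theorem ex_compl {V : Type} [AddCommGroup V] [Module ℂ V] [FiniteDimensional ℂ V] {A B : Submodule ℂ V} (h : A ≤ B) :
    ∃ C ≤ B, A ⊓ C = ⊥ ∧ A ⊔ C = B ∧ finrank ℂ A + finrank ℂ C = finrank ℂ B := by
  obtain ⟨C0, hC0⟩ := Submodule.exists_isCompl A
  have h1 : A ⊓ (C0 ⊓ B) = ⊥ := by
    rw [← inf_assoc, hC0.inf_eq_bot, bot_inf_eq]
  have h2 : A ⊔ (C0 ⊓ B) = B := by
    rw [← sup_inf_assoc_of_le C0 h, hC0.sup_eq_top, top_inf_eq]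
  refine ⟨C0 ⊓ B, inf_le_right, h1, h2, ?_⟩
  have h3 := Submodule.finrank_sup_add_finrank_inf_eq A (C0 ⊓ B)
  rw [h1, h2, finrank_bot] at h3
  omega

/-- the choice of `P` -/
theorem ex_P {V : Type} [AddCommGroup V] [Module ℂ V] [FiniteDimensional ℂ V] (V1 V2 F : Submodule ℂ V) (a m : ℕ)
    (h1 : F ≤ V1) (h2 : F ≤ V2) (hF : finrank ℂ F = m) (ha : a + m ≤ finrank ℂ V1) :
    ∃ P ≤ V1, finrank ℂ P = a ∧ finrank ℂ (P ⊔ F : Submodule ℂ V) = a + m ∧
      (a + finrank ℂ V2 ≤ finrank ℂ (P ⊔ V2 : Submodule ℂ V) ∨ V1 ≤ P ⊔ V2) := by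
  obtain ⟨A1, hA1, hb, hs, hd⟩ := ex_compl (inf_le_left : V1 ⊓ V2 ≤ V1)
  have hFI : F ≤ V1 ⊓ V2 := le_inf h1 h2
  rcases le_or_gt a (finrank ℂ A1) with hc | hc
  · obtain ⟨P, hP, hPd⟩ := ex_sub A1 hc
    refine ⟨P, hP.trans hA1, hPd, ?_, Or.inl ?_⟩
    · have h3 := Submodule.finrank_sup_add_finrank_inf_eq P F
      have h4 : P ⊓ F = ⊥ := by
        rw [eq_bot_iff, ← hb, inf_comm P F]
        exact inf_le_inf hFI hP
      rw [h4, finrank_bot] at h3
      omega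
    · have h3 := Submodule.finrank_sup_add_finrank_inf_eq P V2
      have h4 : P ⊓ V2 = ⊥ := by
        rw [eq_bot_iff, ← hb]
        exact le_inf (le_inf (inf_le_left.trans (hP.trans hA1)) inf_le_right) (inf_le_left.trans hP)
      rw [h4, finrank_bot] at h3
      omega
  · have h5 : finrank ℂ (A1 ⊔ F : Submodule ℂ V) = finrank ℂ A1 + m := by
      have h3 := Submodule.finrank_sup_add_finrank_inf_eq A1 F
      have h4 : A1 ⊓ F = ⊥ := by
        rw [eq_bot_iff, ← hb, inf_comm A1 F]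
        exact inf_le_inf hFI le_rfl
      rw [h4, finrank_bot] at h3
      omega
    obtain ⟨D, hD, hDb, hDs, hDd⟩ := ex_compl (sup_le hA1 h1 : A1 ⊔ F ≤ V1)
    obtain ⟨P2, hP2, hP2d⟩ := ex_sub D (k := a - finrank ℂ A1) (by omega)
    have h6 : finrank ℂ ((A1 ⊔ P2) ⊔ F : Submodule ℂ V) = a + m := by
      have h7 : (A1 ⊔ P2) ⊔ F = (A1 ⊔ F) ⊔ P2 := sup_right_comm _ _ _
      have h3 := Submodule.finrank_sup_add_finrank_inf_eq (A1 ⊔ F) P2
      have h4 : (A1 ⊔ F) ⊓ P2 = ⊥ := by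
        rw [eq_bot_iff, ← hDb]
        exact inf_le_inf le_rfl hP2
      rw [h4, finrank_bot] at h3
      rw [h7]
      omega
    have h8 : finrank ℂ (A1 ⊔ P2 : Submodule ℂ V) = a := by
      have h9 := Submodule.finrank_sup_add_finrank_inf_eq A1 P2
      have h10 := Submodule.finrank_sup_add_finrank_inf_eq (A1 ⊔ P2) F
      omega
    refine ⟨A1 ⊔ P2, sup_le hA1 (hP2.trans hD), h8, h6, Or.inr ?_⟩
    calc V1 = (V1 ⊓ V2) ⊔ A1 := hs.symm
      _ ≤ (A1 ⊔ P2) ⊔ V2 := sup_le (inf_le_right.trans le_sup_right) (le_sup_left.trans le_sup_left)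

theorem hGEN : StGen := by
  intro V _ _ _ V1 V2 E a b m hE1 hE2 hm h1 h2 h12 hV
  obtain ⟨F, hFE, hF⟩ := ex_sub E hm
  obtain ⟨P, hP, hPd, hPF, hor⟩ := ex_P V1 V2 F a m (hFE.trans hE1) (hFE.trans hE2) hF h1
  have hW : a + b + m ≤ finrank ℂ (P ⊔ V2 : Submodule ℂ V) := by
    rcases hor with h | h
    · omega
    · have h3 : V1 ⊔ V2 ≤ P ⊔ V2 := sup_le h le_sup_right
      exact h12.trans (Submodule.finrank_mono h3)
  obtain ⟨C, hC, hCb, hCs, hCd⟩ := ex_compl (inf_le_right : (P ⊔ F) ⊓ V2 ≤ V2)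
  have h3 := Submodule.finrank_sup_add_finrank_inf_eq (P ⊔ F) V2
  have h4 : P ⊔ F ⊔ V2 = P ⊔ V2 := by
    rw [sup_assoc, sup_eq_right.mpr (hFE.trans hE2)]
  rw [h4] at h3
  obtain ⟨Q, hQ, hQd⟩ := ex_sub C (k := b) (by omega)
  have h5 : finrank ℂ (P ⊔ F ⊔ Q : Submodule ℂ V) = a + b + m := by
    have h6 := Submodule.finrank_sup_add_finrank_inf_eq (P ⊔ F) Q
    have h7 : (P ⊔ F) ⊓ Q = ⊥ := by
      rw [eq_bot_iff, ← hCb]
      exact le_inf (le_inf inf_le_left (inf_le_right.trans (hQ.trans hC))) (inf_le_right.trans hQ)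
    rw [h7, finrank_bot] at h6
    omega
  obtain ⟨R, hR, hRb, hRs, hRd⟩ := ex_compl (le_top : P ⊔ F ⊔ Q ≤ ⊤)
  rw [finrank_top] at hRd
  refine ⟨P, Q, F, R, hP, hQ.trans hC, hFE, hPd, hQd, hF, by omega, ?_⟩
  rw [← hRs, sup_right_comm P Q F]

end Pool.Agent.Helper13.KR
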